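import Pool.Agent.P.MP_9167e9_an.Gp.Wall

/-!
Graph products as wall spaces: the module GP.
-/

noncomputable section
open scoped Classical

namespace Pool.Agent.P.MP_9167e9_an

namespace Gp

variable {L : Type} {adj : L → L → Prop} {H : Type} [AddCommGroup H]
variable {Φ : GP adj H → (Wall adj H →₀ H)}

theorem cross_wall (hΦ : Coc Φ) {T : Set L} {q x y : GP adj H} {a : Wall adj H}
    (hx : x ∈ pc adj T q) (hy : y ∈ pc adj T q) (ha : a ∈ W Φ x y) :
    a.1 ∈ T ∧ ∃ z ∈ pc adj T q, a = wall adj a.1 z := by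
  have hT := (pc_W hΦ hx).mp hy
  obtain ⟨z, e, h⟩ := thru hΦ ha
  exact ⟨hT a ha, z, (pc_W hΦ hx).mpr fun a' h' => hT a' (Finset.mem_of_mem_erase (h h')), e⟩

theorem comm (hΦ : Coc Φ) (hs : ∀ f f', adj f f' → adj f' f) {x y : GP adj H} {f f' : L}
    (h : wall adj f x ∈ W Φ x y) (h' : wall adj f' x ∈ W Φ x y) (hne : f ≠ f') : adj f f' := by
  obtain ⟨b, hb, h2⟩ := front hΦ h
  have h3 : wall adj f' x ∈ W Φ (lmp adj f b * x) y := by
    rw [h2]
    exact Finset.mem_erase.mpr ⟨fun e => hne (congrArg Sigma.fst e).symm, h'⟩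
  obtain ⟨z, e, h4⟩ := thru hΦ h3
  have h5 : z * x⁻¹ ∈ Par adj H (star adj f') := wall_eq_iff.mp e
  have h6 : wall adj f x ∈ W Φ x z := by
    refine mem_W_of (y := lmp adj f b * x) (by rw [W_lmp hΦ f x hb]; simp) fun h7 => ?_
    have h8 := Finset.mem_of_mem_erase (h4 h7)
    rw [h2] at h8
    exact Finset.notMem_erase _ _ h8
  rw [W_comm] at h6
  rcases (supp hΦ _ _ _).mp h5 _ h6 with h7 | h7
  · exact absurd h7 hne
  · exact hs _ _ h7

theorem clq_star {T : Set L} (hT : Clq adj T) {f : L} (hf : f ∈ T) : T ⊆ star adj f := by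
  intro f' hf'
  by_cases h : f' = f
  · exact Or.inl h
  · exact Or.inr (hT f hf f' hf' (Ne.symm h))

theorem clq_wall {T : Set L} (hT : Clq adj T) {f : L} (hf : f ∈ T) {q z p : GP adj H}
    (hz : z ∈ pc adj T q) (hp : p ∈ pc adj T q) : wall adj f z = wall adj f p :=
  wall_eq_iff.mpr (par_mono (clq_star hT hf) ((pc_iff hz).mp hp))

theorem card_le (hΦ : Coc Φ) {T U : Set L} (hT : Clq adj T) (hf : T.Finite) {q c e : GP adj H}
    (hc : c ∈ pc adj T q) (he : e ∈ pc adj T q) (hU : ∀ a ∈ W Φ c e, a.1 ∈ U) :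
    (W Φ c e).card ≤ (T ∩ U).ncard := by
  rw [← Set.ncard_coe_finset]
  refine Set.ncard_le_ncard_of_injOn (fun a => a.1)
    (fun a ha => ⟨(cross_wall hΦ hc he ha).1, hU a ha⟩) ?_ (hf.inter_of_left U)
  intro a ha a' ha' h
  obtain ⟨h1, z, hz, e1⟩ := cross_wall hΦ hc he ha
  obtain ⟨h2, z', hz', e2⟩ := cross_wall hΦ hc he ha'
  have h3 : a.1 = a'.1 := h
  rw [e1, e2, ← h3]
  exact clq_wall hT h1 hz hz'

theorem gate_W {T : Set (GP adj H)} {x y c e : GP adj H} (hc : c ∈ T) (he : e ∈ T)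
    (h1 : ∀ c' ∈ T, (W Φ x c').card = (W Φ x c).card + (W Φ c c').card)
    (h2 : ∀ c' ∈ T, (W Φ y c').card = (W Φ y e).card + (W Φ e c').card) :
    W Φ c e ⊆ W Φ x y := by
  intro a ha
  have h3 := Finset.disjoint_right.mp (disj_of_card (h1 e he)) ha
  have h4 := Finset.disjoint_right.mp (disj_of_card (h2 c hc)) (by rwa [W_comm])
  rw [mem_W, not_not] at h3 h4
  rw [mem_W] at ha ⊢
  rwa [h3, h4]

theorem proj (hΦ : Coc Φ) (hs : ∀ f f', adj f f' → adj f' f) {T T' : Set L}
    {q q' x y c e : GP adj H} {θ : ℕ} (hT : Clq adj T) (hf : T.Finite)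
    (h1 : (pc adj T q ∩ pc adj T' q').Nonempty → (T ∩ T').ncard ≤ θ)
    (h2 : ∀ f, f ∉ T → (T ∩ star adj f).ncard ≤ θ) (hx : x ∈ pc adj T' q')
    (hy : y ∈ pc adj T' q') (hc : c ∈ pc adj T q) (he : e ∈ pc adj T q)
    (hW : W Φ c e ⊆ W Φ x y) : (W Φ c e).card ≤ θ := by
  by_cases hm : (pc adj T q ∩ pc adj T' q').Nonempty
  · exact (card_le hΦ hT hf hc he fun a ha => (pc_W hΦ hx).mp hy a (hW ha)).trans (h1 hm)
  · obtain ⟨⟨p, p'⟩, ⟨hp, hp'⟩, hmin⟩ :=
      (measure fun r : GP adj H × GP adj H => (W Φ r.1 r.2).card).wf.has_min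
        (pc adj T q ×ˢ pc adj T' q') ⟨(q, q'), self_mem_pc T q, self_mem_pc T' q'⟩
    simp only at hp hp'
    have hne : p ≠ p' := fun h => hm ⟨p, hp, h ▸ hp'⟩
    obtain ⟨f', b, -, h3, -⟩ := step hΦ hne
    have hf' : f' ∉ T := fun h => min_not hΦ hp
      (fun c' hc' => not_lt.mp (hmin (c', p') ⟨hc', hp'⟩)) h h3
    have hd := min_disj hΦ (x := p) hp' fun c' hc' => by
      rw [W_comm p', W_comm c']
      exact not_lt.mp (hmin (p, c') ⟨hp, hc'⟩)
    refine (card_le hΦ hT hf hc he fun a ha => ?_).trans (h2 f' hf')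
    obtain ⟨h4, z, hz, e1⟩ := cross_wall hΦ hc he ha
    obtain ⟨-, z', hz', e2⟩ := cross_wall hΦ hx hy (hW ha)
    have h5 : z' * p⁻¹ ∈ Par adj H (star adj a.1) :=
      wall_eq_iff.mp ((clq_wall hT h4 hp hz).trans (e1.symm.trans e2))
    have h6 : wall adj f' p ∈ W Φ z' p := by
      rw [W_comm, W_disj (hd z' hz')]
      exact Finset.mem_union_left _ h3
    rcases (supp hΦ _ _ _).mp h5 _ h6 with h7 | h7
    · exact Or.inl h7.symm
    · exact Or.inr (hs _ _ h7)

theorem clique (hΦ : Coc Φ) (h1 : Φ 1 = 0) (E : Type) [Fintype E] (ed : E → L)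
    (hi : Function.Injective ed) (hT : Clq adj (Set.range ed)) :
    ∃ ψ : Multiplicative (E → H) →* GP adj H,
      (∀ e a, ψ (Multiplicative.ofAdd (Pi.single e a)) = lmp adj (ed e) a) ∧
      (∀ a, (W Φ 1 (ψ (Multiplicative.ofAdd a))).card = hammingNorm a) ∧
      ψ.range = Par adj H (Set.range ed) := by
  let φ : E → Multiplicative H →* GP adj H := fun e =>
    MonoidHom.mk' (fun a => lmp adj (ed e) a.toAdd) fun a b => lmp_add _ _ _
  have hφ : Pairwise fun i j => ∀ x y, Commute (φ i x) (φ j y) := fun i j h x y =>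
    lmp_comm _ _ (hT _ ⟨i, rfl⟩ _ ⟨j, rfl⟩ fun e => h (hi e))
  let ψ : Multiplicative (E → H) →* GP adj H :=
    (MonoidHom.noncommPiCoprod φ hφ).comp (MulEquiv.piMultiplicative fun _ : E => H).toMonoidHom
  have hψ : ∀ e a, ψ (Multiplicative.ofAdd (Pi.single e a)) = lmp adj (ed e) a := by
    intro e a
    have h := MonoidHom.noncommPiCoprod_mulSingle φ (hcomm := hφ) e (Multiplicative.ofAdd a)
    refine Eq.trans ?_ h
    show MonoidHom.noncommPiCoprod φ hφ _ = _
    congr 1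
  have hind : ∀ P : (E → H) → Prop, P 0 → (∀ e b a, P a → P (Pi.single e b + a)) → ∀ a, P a := by
    intro P h0 hP a
    rw [← Finset.univ_sum_single a]
    induction (Finset.univ : Finset E) using Finset.induction_on with
    | empty => simpa using h0
    | insert e s he ih =>
      rw [Finset.sum_insert he]
      exact hP _ _ _ ih
  have hmem : ∀ a, ψ (Multiplicative.ofAdd a) ∈ Par adj H (Set.range ed) := by
    refine hind _ (by simp) fun e b a ih => ?_
    rw [ofAdd_add, map_mul, hψ]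
    exact Subgroup.mul_mem _ (lmp_mem (Set.mem_range_self e) b) ih
  have hval : ∀ a, Φ (ψ (Multiplicative.ofAdd a)) =
      ∑ e, Finsupp.single (wall adj (ed e) 1) (a e) := by
    refine hind _ (by simp [h1]) fun e b a ih => ?_
    have h2 : wall adj (ed e) (ψ (Multiplicative.ofAdd a)) = wall adj (ed e) 1 := by
      have h3 := wall_mul (par_mono (clq_star hT (Set.mem_range_self e)) (hmem a)) (1 : GP adj H)
      rwa [mul_one] at h3
    rw [ofAdd_add, map_mul, hψ, hΦ, ih, h2]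
    simp only [Pi.add_apply, Finsupp.single_add, Finset.sum_add_distrib]
    rw [add_comm]
    congr 1
    rw [Finset.sum_eq_single e]
    · simp
    · intro i _ hie
      simp [hie]
    · simp
  have hw : Function.Injective fun e => (wall adj (ed e) 1 : Wall adj H) :=
    fun e e' h => hi (congrArg Sigma.fst h)
  refine ⟨ψ, hψ, fun a => ?_, le_antisymm ?_ ?_⟩
  · have h2 : ∀ e, Φ (ψ (Multiplicative.ofAdd a)) (wall adj (ed e) 1) = a e := by
      intro e
      rw [hval, Finsupp.finsetSum_apply, Finset.sum_eq_single e]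
      · simp
      · intro i _ hie
        exact Finsupp.single_eq_of_ne fun h => hie (hw h).symm
      · simp
    have h3 : W Φ 1 (ψ (Multiplicative.ofAdd a)) =
        (Finset.univ.filter fun e => a e ≠ 0).image fun e => wall adj (ed e) 1 := by
      ext w
      rw [Finset.mem_image]
      constructor
      · intro h
        obtain ⟨⟨e, he⟩, z, hz, e1⟩ := cross_wall hΦ (self_mem_pc (Set.range ed) 1)
          (show _ ∈ pc adj (Set.range ed) 1 by simpa [pc] using hmem a) h
        have h4 : w = wall adj (ed e) 1 := by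
          rw [e1, ← he]
          exact clq_wall hT ⟨e, rfl⟩ hz (self_mem_pc _ 1)
        refine ⟨e, ?_, h4.symm⟩
        rw [mem_W, h1, h4, h2] at h
        simpa using h.symm
      · rintro ⟨e, he, rfl⟩
        rw [mem_W, h1, h2]
        simpa [eq_comm] using he
    rw [h3, Finset.card_image_of_injective _ hw]
    rfl
  · rintro _ ⟨a, rfl⟩
    exact hmem a.toAdd
  · refine (Subgroup.closure_le _).mpr ?_
    rintro _ ⟨_, ⟨e, rfl⟩, a, rfl⟩
    exact ⟨_, hψ e a⟩

theorem mem_car {f : L} {x y : GP adj H} :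
    wall adj f x = wall adj f y ↔ y ∈ pc adj (star adj f) x := wall_eq_iff

/-- The wall space of a graph product. -/
def ws (hΦ : Coc Φ) (h1 : Φ 1 = 0) : PreWS (GP adj H) (Wall adj H) where
  Sec := H
  sec a x := Φ x a
  W := W Φ
  mem_W _ _ _ := mem_W
  aw := aw
  aw_one := aw_one
  aw_mul := aw_mul
  W_aw a x y g := by
    rw [mem_W, mem_W, Phi_mul hΦ h1, Phi_mul hΦ h1]
    simp
  step x y h := by
    obtain ⟨f, b, hb, h2, h3⟩ := step hΦ h
    exact ⟨_, _, W_lmp hΦ f x hb, h2, by rw [h3]; exact Finset.notMem_erase _ _⟩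
  car a := {x | a = wall adj a.1 x}
  car_step x z a h := by
    have hne : x ≠ z := by
      rintro rfl
      rw [W_self] at h
      exact Finset.singleton_ne_empty a h.symm
    obtain ⟨f, b, -, h2, -⟩ := step hΦ hne
    rw [h, Finset.mem_singleton] at h2
    subst h2
    rfl
  car_aw a x g h := by
    have h2 : a = wall adj a.1 x := h
    show aw a g = wall adj a.1 (x * g)
    rw [← aw_wall, ← h2]
  car_gate a x := by
    rintro ⟨q, hq⟩
    have h2 : a = wall adj a.1 q := hq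
    have h3 : {x | a = wall adj a.1 x} = pc adj (star adj a.1) q := by
      ext y
      rw [← mem_car, ← h2]
      rfl
    rw [h3]
    exact gate hΦ _ q x

end Gp

open Gp in
theorem pGP : StGP := by
  intro L adj H _ _ hs _
  obtain ⟨Φ, h1, hΦ⟩ := exists_Phi (H := H) hs
  refine ⟨ws hΦ h1, lmp_add, fun f f' a b h => lmp_comm a b h, aw_wall, fun f x => ?_,
    fun f a x ha => W_lmp hΦ f x ha, fun x y h => ?_, gate hΦ, supp hΦ, fun T q a => ?_,
    fun x y a a' ha ha' hx hx' hne => ?_,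
    fun T T' q q' x y c e θ hT hf h2 h3 hx hy hc he =>
      proj hΦ hs hT hf h2 h3 hx hy hc.1 he.1 (gate_W hc.1 he.1 hc.2 he.2),
    fun E _ ed hi hT => clique hΦ h1 E ed hi hT, lift⟩
  · ext y
    exact mem_car
  · obtain ⟨f, b, hb, h2, h3⟩ := step hΦ h
    refine ⟨f, b, hb, h2, ?_⟩
    show _ ∉ W Φ _ _
    rw [h3]
    exact Finset.notMem_erase _ _
  · constructor
    · rintro ⟨x, hx, y, hy, ha⟩
      exact cross_wall hΦ hx hy ha
    · rintro ⟨hT, z, hz, e⟩
      obtain ⟨b, hb⟩ := exists_ne (0 : H)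
      refine ⟨z, hz, _, lmp_mem_pc hz hT b, ?_⟩
      show a ∈ W Φ _ _
      rw [W_lmp hΦ _ z hb, Finset.mem_singleton]
      exact e
  · have e1 : a = wall adj a.1 x := hx
    have e2 : a' = wall adj a'.1 x := hx'
    refine comm hΦ hs (x := x) (y := y) (by rw [← e1]; exact ha) (by rw [← e2]; exact ha') ?_
    intro h
    exact hne (by rw [e1, e2, h])

end Pool.Agent.P.MP_9167e9_an
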