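import Pool.Agent.P.MP_9167e9_an.StW

/-!
Graph products: relations, walls and the sector cocycle.
-/

noncomputable section
open scoped Classical

namespace Pool.Agent.P.MP_9167e9_an.Gp

variable {L : Type} {adj : L → L → Prop} {H : Type} [AddCommGroup H]

theorem lmp_add (f : L) (a b : H) : lmp adj f (a + b) = lmp adj f a * lmp adj f b := by
  have h : FreeGroup.of (f, a) * FreeGroup.of (f, b) * (FreeGroup.of (f, a + b))⁻¹ ∈
      gpRel adj H := Or.inl ⟨f, a, b, rfl⟩
  have h2 := PresentedGroup.one_of_mem h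
  rw [map_mul, map_mul, map_inv, mul_inv_eq_one] at h2
  exact h2.symm

theorem lmp_comm {f f' : L} (a b : H) (h : adj f f') : Commute (lmp adj f a) (lmp adj f' b) := by
  have h1 : FreeGroup.of (f, a) * FreeGroup.of (f', b) * (FreeGroup.of (f, a))⁻¹ *
      (FreeGroup.of (f', b))⁻¹ ∈ gpRel adj H := Or.inr ⟨f, f', a, b, h, rfl⟩
  have h2 := PresentedGroup.one_of_mem h1
  rw [map_mul, map_mul, map_mul, map_inv, map_inv, mul_inv_eq_one, mul_inv_eq_iff_eq_mul] at h2
  exact h2

theorem lmp_zero (f : L) : lmp adj f (0 : H) = 1 := by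
  have h := lmp_add (adj := adj) f (0 : H) 0
  rw [add_zero] at h
  exact left_eq_mul.mp h

theorem lmp_neg (f : L) (a : H) : lmp adj f (-a) = (lmp adj f a)⁻¹ := by
  rw [eq_inv_iff_mul_eq_one, ← lmp_add, neg_add_cancel, lmp_zero]

theorem lift (N : Type) [Group N] (η : L → H → N) (h1 : ∀ f a b, η f (a + b) = η f a * η f b)
    (h2 : ∀ f f' a b, adj f f' → Commute (η f a) (η f' b)) :
    ∃ φ : GP adj H →* N, ∀ f a, φ (lmp adj f a) = η f a := by
  have h : ∀ r ∈ gpRel adj H, FreeGroup.lift (fun p : L × H => η p.1 p.2) r = 1 := by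
    rintro r (⟨f, a, b, rfl⟩ | ⟨f, f', a, b, h, rfl⟩)
    · simp only [map_mul, map_inv, FreeGroup.lift_apply_of]
      rw [h1, mul_inv_cancel]
    · simp only [map_mul, map_inv, FreeGroup.lift_apply_of]
      rw [(h2 f f' a b h).eq]
      group
  exact ⟨PresentedGroup.toGroup h, fun f a => PresentedGroup.toGroup.of h⟩

theorem lmp_mem {T : Set L} {f : L} (hf : f ∈ T) (a : H) : lmp adj f a ∈ Par adj H T :=
  Subgroup.subset_closure ⟨f, hf, a, rfl⟩

theorem par_ind {T : Set L} {P : GP adj H → Prop} (h1 : P 1)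
    (hm : ∀ f ∈ T, ∀ a x, x ∈ Par adj H T → P x → P (lmp adj f a * x)) :
    ∀ x ∈ Par adj H T, P x := by
  intro x hx
  induction hx using Subgroup.closure_induction_left with
  | one => exact h1
  | mul_left y hy x hx ih =>
    obtain ⟨f, hf, a, rfl⟩ := hy
    exact hm f hf a x hx ih
  | inv_mul_cancel y hy x hx ih =>
    obtain ⟨f, hf, a, rfl⟩ := hy
    rw [← lmp_neg]
    exact hm f hf _ x hx ih

theorem par_univ (x : GP adj H) : x ∈ Par adj H Set.univ := by
  refine PresentedGroup.generated_by _ _ ?_ x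
  rintro ⟨f, a⟩
  exact lmp_mem (Set.mem_univ f) a

theorem ind {P : GP adj H → Prop} (h1 : P 1) (hm : ∀ f a x, P x → P (lmp adj f a * x))
    (x : GP adj H) : P x :=
  par_ind (T := Set.univ) h1 (fun f _ a x _ h => hm f a x h) x (par_univ x)

theorem par_mono {T T' : Set L} (h : T ⊆ T') : Par adj H T ≤ Par adj H T' :=
  Subgroup.closure_mono fun _ ⟨f, hf, a, e⟩ => ⟨f, h hf, a, e⟩

theorem self_mem_star (f : L) : f ∈ star adj f := Or.inl rfl

theorem wall_eq_iff {f : L} {x y : GP adj H} :
    wall adj f x = wall adj f y ↔ y * x⁻¹ ∈ Par adj H (star adj f) := by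
  unfold wall
  rw [Sigma.mk.inj_iff, heq_eq_eq, Quotient.eq, QuotientGroup.rightRel_apply]
  simp

theorem wall_mul {f : L} {p : GP adj H} (hp : p ∈ Par adj H (star adj f)) (x : GP adj H) :
    wall adj f (p * x) = wall adj f x := by
  symm
  rw [wall_eq_iff]
  simpa using hp

theorem wall_lmp {f f' : L} (h : f' ∈ star adj f) (a : H) (x : GP adj H) :
    wall adj f (lmp adj f' a * x) = wall adj f x :=
  wall_mul (lmp_mem h a) x

theorem wall_fst (f : L) (x : GP adj H) : (wall adj f x).1 = f := rfl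

theorem wall_surj (a : Wall adj H) : ∃ x, a = wall adj a.1 x := by
  obtain ⟨f, q⟩ := a
  induction q using Quotient.inductionOn with
  | h x => exact ⟨x, rfl⟩

/-- The right action on walls. -/
def aw (a : Wall adj H) (g : GP adj H) : Wall adj H :=
  ⟨a.1, Quotient.map' (· * g) (fun x y h => by
    rw [QuotientGroup.rightRel_apply] at h ⊢
    simpa [mul_assoc] using h) a.2⟩

theorem aw_wall (f : L) (x g : GP adj H) : aw (wall adj f x) g = wall adj f (x * g) := rfl

theorem aw_one (a : Wall adj H) : aw a 1 = a := by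
  obtain ⟨x, hx⟩ := wall_surj a
  rw [hx, aw_wall, mul_one]

theorem aw_mul (a : Wall adj H) (g g' : GP adj H) : aw (aw a g) g' = aw a (g * g') := by
  obtain ⟨x, hx⟩ := wall_surj a
  rw [hx, aw_wall, aw_wall, aw_wall, mul_assoc]

theorem aw_inj (g : GP adj H) {a a' : Wall adj H} (h : aw a g = aw a' g) : a = a' := by
  have h2 := congrArg (fun b => aw b g⁻¹) h
  simpa only [aw_mul, mul_inv_cancel, aw_one] using h2

/-- The action of a lamp on pairs (point, sector record). -/
def eta (f : L) (a : H) : Equiv.Perm (GP adj H × (Wall adj H →₀ H)) where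
  toFun p := (lmp adj f a * p.1, p.2 + Finsupp.single (wall adj f p.1) a)
  invFun p := (lmp adj f (-a) * p.1, p.2 + Finsupp.single (wall adj f p.1) (-a))
  left_inv p := by
    simp only [wall_lmp (self_mem_star f), lmp_neg, inv_mul_cancel_left, add_assoc,
      ← Finsupp.single_add, add_neg_cancel, Finsupp.single_zero, add_zero]
  right_inv p := by
    have h := wall_lmp (adj := adj) (self_mem_star f) (-a) p.1
    simp only [h]
    simp only [lmp_neg, mul_inv_cancel_left, add_assoc,
      ← Finsupp.single_add, neg_add_cancel, Finsupp.single_zero, add_zero]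

theorem eta_apply (f : L) (a : H) (p : GP adj H × (Wall adj H →₀ H)) :
    eta f a p = (lmp adj f a * p.1, p.2 + Finsupp.single (wall adj f p.1) a) := rfl

theorem exists_Phi (hs : ∀ f f', adj f f' → adj f' f) :
    ∃ Φ : GP adj H → (Wall adj H →₀ H), Φ 1 = 0 ∧
      ∀ f a x, Φ (lmp adj f a * x) = Φ x + Finsupp.single (wall adj f x) a := by
  obtain ⟨ρ, hρ⟩ := lift (adj := adj) (Equiv.Perm (GP adj H × (Wall adj H →₀ H))) eta
    (fun f a b => by
      ext1 p
      simp only [Equiv.Perm.mul_apply, eta_apply, wall_lmp (self_mem_star f), lmp_add,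
        mul_assoc, add_assoc, ← Finsupp.single_add, add_comm b a])
    (fun f f' a b h => by
      have h1 : f' ∈ star adj f := Or.inr h
      have h2 : f ∈ star adj f' := Or.inr (hs _ _ h)
      refine Equiv.ext fun p => ?_
      simp only [Equiv.Perm.mul_apply, eta_apply, wall_lmp h1, wall_lmp h2, ← mul_assoc,
        (lmp_comm a b h).eq]
      rw [add_right_comm])
  have hf : ∀ x, (ρ x (1, 0)).1 = x := by
    intro x
    induction x using ind with
    | h1 => simp
    | hm f a x ih => rw [map_mul, Equiv.Perm.mul_apply, hρ, eta_apply, ih]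
  refine ⟨fun x => (ρ x (1, 0)).2, by simp, fun f a x => ?_⟩
  simp only [map_mul, Equiv.Perm.mul_apply, hρ, eta_apply, hf]

end Pool.Agent.P.MP_9167e9_an.Gp
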