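import Pool.Agent.P.MP_9167e9_an.Gp.Base

/-!
Graph products: the first wall of a shortest word separates its ends.
-/

noncomputable section
open scoped Classical

namespace Pool.Agent.P.MP_9167e9_an.Gp

variable {L : Type} {adj : L → L → Prop} {H : Type} [AddCommGroup H]

variable (adj) in
/-- The value of a word. -/
def ev (u : List (L × H)) : GP adj H := (u.map fun l => lmp adj l.1 l.2).prod

theorem ev_nil : ev adj ([] : List (L × H)) = 1 := rfl

theorem ev_cons (l : L × H) (u : List (L × H)) :
    ev adj (l :: u) = lmp adj l.1 l.2 * ev adj u := by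
  simp [ev]

theorem ev_append (u v : List (L × H)) : ev adj (u ++ v) = ev adj u * ev adj v := by
  simp [ev]

theorem ev_surj (x : GP adj H) : ∃ u, ev adj u = x := by
  induction x using ind with
  | h1 => exact ⟨[], rfl⟩
  | hm f a x ih =>
    obtain ⟨u, rfl⟩ := ih
    exact ⟨(f, a) :: u, ev_cons _ _⟩

variable (adj) in
/-- A shortest word. -/
def Short (u : List (L × H)) : Prop := ∀ v, ev adj v = ev adj u → u.length ≤ v.length

theorem exists_short (x : GP adj H) : ∃ u, ev adj u = x ∧ Short adj u := by
  have h : ∃ n, ∃ u : List (L × H), ev adj u = x ∧ u.length = n := by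
    obtain ⟨u, hu⟩ := ev_surj x
    exact ⟨_, u, hu, rfl⟩
  obtain ⟨u, hu, hn⟩ := Nat.find_spec h
  refine ⟨u, hu, fun v hv => ?_⟩
  rw [hn]
  exact Nat.find_min' h ⟨v, hv.trans hu, rfl⟩

theorem Short.left {u v : List (L × H)} (h : Short adj (u ++ v)) : Short adj u := by
  intro u' hu
  have h2 := h (u' ++ v) (by rw [ev_append, ev_append, hu])
  simpa using h2

theorem Short.tail {l : L × H} {v : List (L × H)} (h : Short adj (l :: v)) : Short adj v := by
  intro v' hv
  have h2 := h (l :: v') (by rw [ev_cons, ev_cons, hv])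
  simpa using h2

theorem exists_ret (T : Set L) : ∃ r : GP adj H →* GP adj H,
    ∀ f a, r (lmp adj f a) = if f ∈ T then lmp adj f a else 1 := by
  refine lift _ (fun f a => if f ∈ T then lmp adj f a else 1) (fun f a b => ?_)
    (fun f f' a b h => ?_)
  · split_ifs
    · exact lmp_add f a b
    · simp
  · split_ifs
    · exact lmp_comm a b h
    all_goals simp

theorem Short.letters {T : Set L} {v : List (L × H)} (h : Short adj v)
    (hv : ev adj v ∈ Par adj H T) : ∀ l ∈ v, l.1 ∈ T := by
  obtain ⟨r, hr⟩ := exists_ret (adj := adj) (H := H) T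
  have h1 : ∀ x ∈ Par adj H T, r x = x := by
    refine par_ind (by simp) fun f hf a x _ ih => ?_
    rw [map_mul, hr, if_pos hf, ih]
  have h2 : ∀ u : List (L × H), r (ev adj u) = ev adj (u.filter fun l => decide (l.1 ∈ T)) := by
    intro u
    induction u with
    | nil => simp [ev_nil]
    | cons l u ih =>
      rw [ev_cons, map_mul, hr, ih]
      by_cases hl : l.1 ∈ T
      · rw [if_pos hl, List.filter_cons_of_pos (by simpa using hl), ev_cons]
      · rw [if_neg hl, List.filter_cons_of_neg (by simpa using hl), one_mul]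
  have h3 := h _ ((h2 v).symm.trans (h1 _ hv))
  have h4 : (v.filter fun l => decide (l.1 ∈ T)).length = v.length :=
    le_antisymm (List.length_filter_le _ _) h3
  intro l hl
  simpa using List.length_filter_eq_length_iff.mp h4 l hl

theorem comm_star {f f' : L} (h : f' ∈ star adj f) (a b : H) :
    Commute (lmp adj f a) (lmp adj f' b) := by
  rcases h with rfl | h
  · unfold Commute SemiconjBy
    rw [← lmp_add, ← lmp_add, add_comm]
  · exact lmp_comm a b h

theorem comm_ev {f : L} (a : H) {v : List (L × H)} (h : ∀ l ∈ v, l.1 ∈ star adj f) :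
    Commute (lmp adj f a) (ev adj v) := by
  induction v with
  | nil => exact Commute.one_right _
  | cons l v ih =>
    rw [ev_cons]
    exact (comm_star (h l (by simp)) a _).mul_right (ih fun l' hl => h l' (by simp [hl]))

variable {Φ : GP adj H → (Wall adj H →₀ H)}

theorem short_keep (hΦ : ∀ f a x, Φ (lmp adj f a * x) = Φ x + Finsupp.single (wall adj f x) a)
    (f : L) (a : H) (x : GP adj H) (u : List (L × H)) (hu : Short adj (u ++ [(f, a)])) :
    Φ (ev adj u * (lmp adj f a * x)) (wall adj f x) = Φ (lmp adj f a * x) (wall adj f x) := by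
  induction u with
  | nil => rw [ev_nil, one_mul]
  | cons l u ih =>
    obtain ⟨f', b⟩ := l
    have hu' : Short adj (u ++ [(f, a)]) := Short.tail (l := (f', b)) hu
    rw [ev_cons, mul_assoc, hΦ, Finsupp.add_apply, ih hu', Finsupp.single_eq_of_ne', add_zero]
    intro h
    obtain rfl : f' = f := congrArg Sigma.fst h
    have h1 : ev adj u ∈ Par adj H (star adj f') := by
      have h2 := wall_eq_iff.mp h.symm
      have h3 : ev adj u = ev adj u * (lmp adj f' a * x) * x⁻¹ * (lmp adj f' a)⁻¹ := by group
      rw [h3]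
      exact Subgroup.mul_mem _ h2 (Subgroup.inv_mem _ (lmp_mem (self_mem_star f') a))
    have h2 := comm_ev a (hu'.left.letters h1)
    have h3 := hu ((f', b + a) :: u) (by
      rw [List.cons_append, ev_cons, ev_cons, ev_append, ev_cons, ev_nil, mul_one, lmp_add,
        mul_assoc, h2.eq])
    simp at h3

theorem first_wall (hΦ : ∀ f a x, Φ (lmp adj f a * x) = Φ x + Finsupp.single (wall adj f x) a)
    {x y : GP adj H} (h : x ≠ y) : ∃ f, Φ x (wall adj f x) ≠ Φ y (wall adj f x) := by
  obtain ⟨u, hu, hs⟩ := exists_short (y * x⁻¹)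
  rcases List.eq_nil_or_concat u with rfl | ⟨v, ⟨f, a⟩, rfl⟩
  · rw [ev_nil, eq_comm, mul_inv_eq_one] at hu
    exact absurd hu.symm h
  · rw [List.concat_eq_append] at hu hs
    have ha : a ≠ 0 := by
      rintro rfl
      have h2 := hs v (by rw [ev_append, ev_cons, ev_nil, lmp_zero, mul_one, mul_one])
      simp at h2
    have hy : y = ev adj v * (lmp adj f a * x) := by
      rw [ev_append, ev_cons, ev_nil, mul_one] at hu
      rw [← mul_assoc, hu, inv_mul_cancel_right]
    refine ⟨f, ?_⟩
    rw [hy, short_keep hΦ f a x v hs, hΦ, Finsupp.add_apply, Finsupp.single_eq_same]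
    simpa using ha

end Pool.Agent.P.MP_9167e9_an.Gp
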