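import Pool.Agent.P.MP_9167e9_an.Gp.Step

/-!
Graph products: separating walls, supports and gates.
-/

noncomputable section
open scoped Classical

namespace Pool.Agent.P.MP_9167e9_an.Gp

variable {L : Type} {adj : L → L → Prop} {H : Type} [AddCommGroup H]

/-- The defining property of the sector record. -/
def Coc (Φ : GP adj H → (Wall adj H →₀ H)) : Prop :=
  ∀ f a x, Φ (lmp adj f a * x) = Φ x + Finsupp.single (wall adj f x) a

/-- The walls separating two points. -/
def W (Φ : GP adj H → (Wall adj H →₀ H)) (x y : GP adj H) : Finset (Wall adj H) :=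
  (Φ x - Φ y).support

variable {Φ : GP adj H → (Wall adj H →₀ H)}

theorem mem_W {a : Wall adj H} {x y : GP adj H} : a ∈ W Φ x y ↔ Φ x a ≠ Φ y a := by
  rw [W, Finsupp.mem_support_iff, Finsupp.sub_apply, sub_ne_zero]

theorem W_comm (x y : GP adj H) : W Φ x y = W Φ y x := by
  ext a
  rw [mem_W, mem_W, ne_comm]

theorem W_self (x : GP adj H) : W Φ x x = ∅ := by
  ext a
  simp [mem_W]

theorem W_tri (x y z : GP adj H) : W Φ x z ⊆ W Φ x y ∪ W Φ y z := by
  intro a ha
  rw [Finset.mem_union]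
  rw [mem_W] at ha
  by_contra h
  simp only [mem_W, not_or, not_not] at h
  exact ha (h.1.trans h.2)

theorem mem_W_of {a : Wall adj H} {x y z : GP adj H} (h1 : a ∈ W Φ x y) (h2 : a ∉ W Φ y z) :
    a ∈ W Φ x z := by
  rw [mem_W] at h1 ⊢
  rw [mem_W, not_not] at h2
  rwa [← h2]

theorem W_disj {x y z : GP adj H} (h : Disjoint (W Φ x y) (W Φ y z)) :
    W Φ x z = W Φ x y ∪ W Φ y z := by
  refine Finset.Subset.antisymm (W_tri x y z) fun a ha => ?_
  rcases Finset.mem_union.mp ha with ha | ha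
  · exact mem_W_of ha (Finset.disjoint_left.mp h ha)
  · rw [W_comm] at ha ⊢
    refine mem_W_of ha ?_
    rw [W_comm] at ha ⊢
    exact Finset.disjoint_right.mp h ha

theorem disj_of_card {x y z : GP adj H}
    (h : (W Φ x z).card = (W Φ x y).card + (W Φ y z).card) : Disjoint (W Φ x y) (W Φ y z) := by
  have h1 := Finset.card_le_card (W_tri (Φ := Φ) x y z)
  have h2 := Finset.card_union_add_card_inter (W Φ x y) (W Φ y z)
  rw [Finset.disjoint_iff_inter_eq_empty, ← Finset.card_eq_zero]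
  omega

theorem W_lmp_sub (hΦ : Coc Φ) (f : L) (b : H) (x : GP adj H) {a : Wall adj H}
    (ha : a ∈ W Φ x (lmp adj f b * x)) : a = wall adj f x := by
  rw [mem_W, hΦ, Finsupp.add_apply] at ha
  by_contra h
  exact ha (by rw [Finsupp.single_eq_of_ne h, add_zero])

theorem W_lmp (hΦ : Coc Φ) (f : L) {b : H} (x : GP adj H) (hb : b ≠ 0) :
    W Φ x (lmp adj f b * x) = {wall adj f x} := by
  ext a
  rw [Finset.mem_singleton]
  refine ⟨W_lmp_sub hΦ f b x, ?_⟩
  rintro rfl
  rw [mem_W, hΦ, Finsupp.add_apply, Finsupp.single_eq_same]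
  simpa using hb

theorem front (hΦ : Coc Φ) {f : L} {x y : GP adj H} (h : wall adj f x ∈ W Φ x y) :
    ∃ b : H, b ≠ 0 ∧ W Φ (lmp adj f b * x) y = (W Φ x y).erase (wall adj f x) := by
  refine ⟨Φ y (wall adj f x) - Φ x (wall adj f x), sub_ne_zero.mpr (mem_W.mp h).symm, ?_⟩
  ext a
  rw [Finset.mem_erase, mem_W, mem_W, hΦ, Finsupp.add_apply]
  by_cases ha : a = wall adj f x
  · subst ha
    simp
  · rw [Finsupp.single_eq_of_ne ha, add_zero]
    simp [ha]

theorem step (hΦ : Coc Φ) {x y : GP adj H} (h : x ≠ y) : ∃ f, ∃ b : H, b ≠ 0 ∧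
    wall adj f x ∈ W Φ x y ∧ W Φ (lmp adj f b * x) y = (W Φ x y).erase (wall adj f x) := by
  obtain ⟨f, hf⟩ := first_wall hΦ h
  obtain ⟨b, hb, h2⟩ := front hΦ (mem_W.mpr hf)
  exact ⟨f, b, hb, mem_W.mpr hf, h2⟩

theorem W_ind (hΦ : Coc Φ) (y : GP adj H) {P : GP adj H → Prop} (h0 : P y)
    (hs : ∀ x f (b : H), b ≠ 0 → wall adj f x ∈ W Φ x y →
      W Φ (lmp adj f b * x) y = (W Φ x y).erase (wall adj f x) → P (lmp adj f b * x) → P x)
    (x : GP adj H) : P x := by
  induction hn : (W Φ x y).card using Nat.strong_induction_on generalizing x with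
  | h n ih =>
    by_cases h : x = y
    · rwa [h]
    · obtain ⟨f, b, hb, h1, h2⟩ := step hΦ h
      refine hs x f b hb h1 h2 (ih _ ?_ _ rfl)
      rw [h2, ← hn]
      exact Finset.card_erase_lt_of_mem h1

theorem eq_of_W (hΦ : Coc Φ) {x y : GP adj H} (h : W Φ x y = ∅) : x = y := by
  by_contra hne
  obtain ⟨f, b, -, h1, -⟩ := step hΦ hne
  simp [h] at h1

theorem supp (hΦ : Coc Φ) (T : Set L) (x y : GP adj H) :
    x * y⁻¹ ∈ Par adj H T ↔ ∀ a ∈ W Φ x y, a.1 ∈ T := by
  constructor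
  · have h : ∀ p ∈ Par adj H T, ∀ a ∈ W Φ (p * y) y, a.1 ∈ T := by
      refine par_ind (by simp [W_self]) fun f hf b p _ ih a ha => ?_
      rcases Finset.mem_union.mp (W_tri _ (p * y) _ ha) with ha | ha
      · rw [W_comm, mul_assoc] at ha
        rw [W_lmp_sub hΦ f b _ ha]
        exact hf
      · exact ih a ha
    intro hp
    simpa using h _ hp
  · induction x using W_ind hΦ y with
    | h0 => simp
    | hs x f b hb h1 h2 ih =>
      intro h
      have h3 := ih fun a ha => h a (by rw [h2] at ha; exact Finset.mem_of_mem_erase ha)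
      have h4 : x * y⁻¹ = (lmp adj f b)⁻¹ * (lmp adj f b * x * y⁻¹) := by group
      rw [h4]
      exact Subgroup.mul_mem _ (Subgroup.inv_mem _ (lmp_mem (h _ h1) b)) h3

theorem thru (hΦ : Coc Φ) {a : Wall adj H} {x y : GP adj H} (ha : a ∈ W Φ x y) :
    ∃ z, a = wall adj a.1 z ∧ W Φ x z ⊆ (W Φ x y).erase a := by
  induction x using W_ind hΦ y with
  | h0 => simp [W_self] at ha
  | hs x f b hb h1 h2 ih =>
    by_cases h : a = wall adj f x
    · exact ⟨x, by rw [h]; rfl, by simp [W_self]⟩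
    · obtain ⟨z, hz, h3⟩ := ih (by rw [h2]; exact Finset.mem_erase.mpr ⟨h, ha⟩)
      refine ⟨z, hz, fun a' ha' => ?_⟩
      rcases Finset.mem_union.mp (W_tri _ (lmp adj f b * x) _ ha') with h4 | h4
      · rw [W_lmp_sub hΦ f b x h4]
        exact Finset.mem_erase.mpr ⟨Ne.symm h, h1⟩
      · have h5 := Finset.mem_erase.mp (h3 h4)
        rw [h2] at h5
        exact Finset.mem_erase.mpr ⟨h5.1, Finset.mem_of_mem_erase h5.2⟩

theorem self_mem_pc (T : Set L) (q : GP adj H) : q ∈ pc adj T q := by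
  simp [pc]

theorem pc_iff {T : Set L} {q x y : GP adj H} (hx : x ∈ pc adj T q) :
    y ∈ pc adj T q ↔ y * x⁻¹ ∈ Par adj H T := by
  constructor
  · intro hy
    have h : y * x⁻¹ = y * q⁻¹ * (x * q⁻¹)⁻¹ := by group
    rw [h]
    exact Subgroup.mul_mem _ hy (Subgroup.inv_mem _ hx)
  · intro hy
    have h : y * q⁻¹ = y * x⁻¹ * (x * q⁻¹) := by group
    show y * q⁻¹ ∈ Par adj H T
    rw [h]
    exact Subgroup.mul_mem _ hy hx

theorem pc_W (hΦ : Coc Φ) {T : Set L} {q x y : GP adj H} (hx : x ∈ pc adj T q) :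
    y ∈ pc adj T q ↔ ∀ a ∈ W Φ x y, a.1 ∈ T := by
  rw [pc_iff hx, supp hΦ, W_comm]

theorem lmp_mem_pc {T : Set L} {q x : GP adj H} (hx : x ∈ pc adj T q) {f : L} (hf : f ∈ T)
    (b : H) : lmp adj f b * x ∈ pc adj T q := by
  rw [pc_iff hx]
  simpa using lmp_mem hf b

/-- A closest point of a coset is separated from `x` by no wall at it with label in `T`. -/
theorem min_not (hΦ : Coc Φ) {T : Set L} {q x c : GP adj H} (hc : c ∈ pc adj T q)
    (hm : ∀ c' ∈ pc adj T q, (W Φ c x).card ≤ (W Φ c' x).card) {f : L} (hf : f ∈ T) :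
    wall adj f c ∉ W Φ c x := by
  intro h
  obtain ⟨b, -, h2⟩ := front hΦ h
  have h3 := hm _ (lmp_mem_pc hc hf b)
  rw [h2] at h3
  exact absurd (Finset.card_erase_lt_of_mem h) (not_lt.mpr h3)

theorem min_disj (hΦ : Coc Φ) {T : Set L} {q x c : GP adj H} (hc : c ∈ pc adj T q)
    (hm : ∀ c' ∈ pc adj T q, (W Φ c x).card ≤ (W Φ c' x).card) :
    ∀ c' ∈ pc adj T q, Disjoint (W Φ x c) (W Φ c c') := by
  intro c' hc'
  induction hn : (W Φ c c').card using Nat.strong_induction_on generalizing c' with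
  | h n ih =>
    rw [Finset.disjoint_left]
    intro a ha ha'
    rw [W_comm] at ha
    obtain ⟨z1, e1, h1⟩ := thru hΦ ha'
    obtain ⟨z2, e2, h2⟩ := thru hΦ ha
    have hT := (pc_W hΦ hc).mp hc'
    have hz1 : z1 ∈ pc adj T q :=
      (pc_W hΦ hc).mpr fun a' h => hT a' (Finset.mem_of_mem_erase (h1 h))
    have hlt : (W Φ c z1).card < n := by
      rw [← hn]
      exact (Finset.card_le_card h1).trans_lt (Finset.card_erase_lt_of_mem ha')
    have hd := ih _ hlt z1 hz1 rfl
    have hd2 : Disjoint (W Φ z2 c) (W Φ c z1) := by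
      refine hd.mono_left fun a' h => ?_
      rw [W_comm] at h ⊢
      exact Finset.mem_of_mem_erase (h2 h)
    have h3 : z2 * z1⁻¹ ∈ Par adj H (star adj a.1) := wall_eq_iff.mp (e1.symm.trans e2)
    have h4 : z2 * c⁻¹ ∈ Par adj H (star adj a.1) := by
      rw [supp hΦ] at h3 ⊢
      intro a' h
      exact h3 a' (by rw [W_disj hd2]; exact Finset.mem_union_left _ h)
    have h5 : a = wall adj a.1 c := e2.trans (wall_eq_iff.mpr h4).symm
    refine min_not hΦ hc hm (hT a ha') ?_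
    rwa [← h5]

theorem min_gate (hΦ : Coc Φ) {T : Set L} {q x c : GP adj H} (hc : c ∈ pc adj T q)
    (hm : ∀ c' ∈ pc adj T q, (W Φ c x).card ≤ (W Φ c' x).card) :
    ∀ c' ∈ pc adj T q, (W Φ x c').card = (W Φ x c).card + (W Φ c c').card := by
  intro c' hc'
  have h := min_disj hΦ hc hm c' hc'
  rw [W_disj h, Finset.card_union_of_disjoint h]

theorem gate (hΦ : Coc Φ) (T : Set L) (q x : GP adj H) : ∃ c ∈ pc adj T q,
    ∀ c' ∈ pc adj T q, (W Φ x c').card = (W Φ x c).card + (W Φ c c').card := by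
  obtain ⟨c, hc, hm⟩ := (measure fun c => (W Φ c x).card).wf.has_min (pc adj T q)
    ⟨q, self_mem_pc T q⟩
  exact ⟨c, hc, min_gate hΦ hc fun c' hc' => not_lt.mp (hm c' hc')⟩

theorem Phi_mul (hΦ : Coc Φ) (h1 : Φ 1 = 0) (x q : GP adj H) (a : Wall adj H) :
    Φ (x * q) (aw a q) = Φ x a + Φ q (aw a q) := by
  induction x using ind with
  | h1 => simp [h1]
  | hm f b x ih =>
    rw [mul_assoc, hΦ, hΦ, Finsupp.add_apply, Finsupp.add_apply, ih, add_right_comm]
    congr 1
    by_cases h : a = wall adj f x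
    · subst h
      rw [aw_wall, Finsupp.single_eq_same, Finsupp.single_eq_same]
    · rw [Finsupp.single_eq_of_ne h, Finsupp.single_eq_of_ne]
      rw [← aw_wall]
      exact fun h2 => h (aw_inj q h2)

end Pool.Agent.P.MP_9167e9_an.Gp
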